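import Mathlib

set_option autoImplicit false

namespace Pool.Agent.H.MP_d25222_al

def D : ℕ → ℤ → ℤ
  | 0, m => 2 * |m| + 1
  | n + 1, m => D n (m + 1) + D n (m - 1)

def Wk : ℕ → ℤ → ℤ
  | 0, m => if m = 0 then 1 else 0
  | n + 1, m => Wk n (m + 1) + Wk n (m - 1)

theorem D_succ (n : ℕ) : ∀ m : ℤ, D (n + 1) m = 2 * D n m + 4 * Wk n m := by
  induction n with
  | zero =>
    intro m
    simp only [D, Wk]
    rcases lt_trichotomy m 0 with h | h | h
    · rw [abs_of_nonpos (by omega : m + 1 ≤ 0), abs_of_neg (by omega : m - 1 < 0), abs_of_neg h,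
        if_neg h.ne]
      ring
    · subst h; simp
    · rw [abs_of_pos (by omega : 0 < m + 1), abs_of_nonneg (by omega : 0 ≤ m - 1), abs_of_pos h,
        if_neg h.ne']
      ring
  | succ n ih =>
    intro m
    have h1 := ih (m + 1)
    have h2 := ih (m - 1)
    have e1 : D (n + 1 + 1) m = D (n + 1) (m + 1) + D (n + 1) (m - 1) := rfl
    have e2 : D (n + 1) m = D n (m + 1) + D n (m - 1) := rfl
    have e3 : Wk (n + 1) m = Wk n (m + 1) + Wk n (m - 1) := rfl
    rw [e1, h1, h2, e2, e3]; ring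

theorem Wk_gt (n : ℕ) : ∀ m : ℤ, (n : ℤ) < m → Wk n m = 0 := by
  induction n with
  | zero => intro m h; simp only [Wk]; rw [if_neg (by omega)]
  | succ n ih =>
    intro m h
    simp only [Wk]
    rw [ih _ (by push_cast at h; omega), ih _ (by push_cast at h; omega)]; rfl

theorem Wk_odd (n : ℕ) : ∀ m : ℤ, ((n : ℤ) + m) % 2 = 1 → Wk n m = 0 := by
  induction n with
  | zero => intro m h; simp only [Wk]; rw [if_neg (by omega)]
  | succ n ih =>
    intro m h
    simp only [Wk]
    rw [ih _ (by push_cast at h; omega), ih _ (by push_cast at h; omega)]; rfl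

theorem Wk_choose (n : ℕ) : ∀ j : ℕ, Wk n ((n : ℤ) - 2 * j) = (n.choose j : ℤ) := by
  induction n with
  | zero =>
    intro j
    simp only [Wk]
    cases j with
    | zero => simp
    | succ j => rw [if_neg (by push_cast; omega)]; simp
  | succ n ih =>
    intro j
    simp only [Wk]
    cases j with
    | zero =>
      have h0 := ih 0
      rw [Wk_gt n _ (by push_cast; omega)]
      have : ((n + 1 : ℕ) : ℤ) - 2 * ((0 : ℕ) : ℤ) - 1 = (n : ℤ) - 2 * ((0 : ℕ) : ℤ) := by
        push_cast; ring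
      rw [this, h0]; simp
    | succ j =>
      have a1 : ((n + 1 : ℕ) : ℤ) - 2 * ((j + 1 : ℕ) : ℤ) + 1 = (n : ℤ) - 2 * (j : ℤ) := by
        push_cast; ring
      have a2 : ((n + 1 : ℕ) : ℤ) - 2 * ((j + 1 : ℕ) : ℤ) - 1 =
          (n : ℤ) - 2 * ((j + 1 : ℕ) : ℤ) := by
        push_cast; ring
      rw [a1, a2, ih j, ih (j + 1), Nat.choose_succ_succ]; push_cast; ring

theorem Wk_even (j : ℕ) : Wk (2 * j) 0 = ((2 * j).choose j : ℤ) := by
  have := Wk_choose (2 * j) j
  rw [← this]; congr 1; push_cast; ring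

theorem Wk_dvd (l : ℕ) (hl : l.Prime) (j : ℕ) (h1 : l ≤ j) (h2 : j < 2 * l) :
    ((Wk j 0 : ℤ) : ZMod l) = 0 := by
  rcases Nat.even_or_odd' j with ⟨i, rfl | rfl⟩
  · rw [Wk_even]
    have : l ∣ (2 * i).choose i := hl.dvd_choose (by omega) (by omega) h1
    rw [Int.cast_natCast]
    exact (ZMod.natCast_eq_zero_iff _ _).2 this
  · rw [Wk_odd _ _ (by push_cast; omega)]; simp

theorem Wk_top (l : ℕ) (hl : l.Prime) : ((Wk (2 * l) 0 : ℤ) : ZMod l) = 2 := by
  have : Fact l.Prime := ⟨hl⟩
  rw [Wk_even, Int.cast_natCast]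
  have h := Choose.choose_modEq_choose_mod_mul_choose_div_nat (n := 2 * l) (k := l) (p := l)
  rw [Nat.mul_mod_left, Nat.mod_self, Nat.mul_div_cancel _ hl.pos, Nat.div_self hl.pos] at h
  have := (ZMod.natCast_eq_natCast_iff _ _ _).2 h
  rw [this]; norm_num

open PowerSeries in
theorem not_rational (P Q : Polynomial ℚ) (hQ : Q ≠ 0)
    (h : (Q : PowerSeries ℚ) * PowerSeries.mk (fun n : ℕ => ((D n 0 : ℤ) : ℚ)) =
      (P : PowerSeries ℚ)) : False := by
  classical
  obtain ⟨b, hb, hbQ⟩ := IsLocalization.integerNormalization_spec (nonZeroDivisors ℤ) Q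
  set R := IsLocalization.integerNormalization (nonZeroDivisors ℤ) Q with hR
  have hb0 : (b : ℚ) ≠ 0 := by
    exact_mod_cast nonZeroDivisors.ne_zero hb
  have hcoef : ∀ i, ((R.coeff i : ℤ) : ℚ) = (b : ℚ) * Q.coeff i := by
    intro i
    have := congrArg (fun f => Polynomial.coeff f i) hbQ
    simpa using this
  have hR0 : R ≠ 0 := by
    intro h0
    apply hQ
    ext i
    have := hcoef i
    rw [h0] at this
    simp only [Polynomial.coeff_zero, Int.cast_zero] at this
    rcases mul_eq_zero.1 this.symm with h | h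
    · exact absurd h hb0
    · simpa using h
  have hrec : ∀ n, P.natDegree < n →
      ∑ x ∈ Finset.HasAntidiagonal.antidiagonal n, R.coeff x.1 * D x.2 0 = 0 := by
    intro n hn
    have h1 := congrArg (PowerSeries.coeff n) h
    rw [PowerSeries.coeff_mul, Polynomial.coeff_coe, Polynomial.coeff_eq_zero_of_natDegree_lt hn]
      at h1
    have h2 : ((∑ x ∈ Finset.HasAntidiagonal.antidiagonal n, R.coeff x.1 * D x.2 0 : ℤ) : ℚ) = 0 := by
      push_cast
      have : ∑ x ∈ Finset.HasAntidiagonal.antidiagonal n, ((R.coeff x.1 : ℤ) : ℚ) * ((D x.2 0 : ℤ) : ℚ) =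
          (b : ℚ) * ∑ x ∈ Finset.HasAntidiagonal.antidiagonal n, PowerSeries.coeff x.1 (Q : PowerSeries ℚ) *
            PowerSeries.coeff x.2 (PowerSeries.mk (fun n : ℕ => ((D n 0 : ℤ) : ℚ))) := by
        rw [Finset.mul_sum]
        refine Finset.sum_congr rfl fun x _ => ?_
        rw [hcoef, Polynomial.coeff_coe, PowerSeries.coeff_mk]; ring
      rw [this, h1, mul_zero]
    exact_mod_cast h2
  have hW : ∀ n, P.natDegree < n → R.natDegree ≤ n →
      4 * ∑ x ∈ Finset.HasAntidiagonal.antidiagonal n, R.coeff x.1 * Wk x.2 0 = 0 := by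
    intro n hn hn'
    have h1 := hrec (n + 1) (by omega)
    have h2 := hrec n hn
    rw [Finset.Nat.sum_antidiagonal_succ'] at h1
    simp only at h1
    rw [Polynomial.coeff_eq_zero_of_natDegree_lt (by omega : R.natDegree < n + 1)] at h1
    have h3 : ∑ x ∈ Finset.HasAntidiagonal.antidiagonal n, R.coeff x.1 * D (x.2 + 1) 0 =
        2 * ∑ x ∈ Finset.HasAntidiagonal.antidiagonal n, R.coeff x.1 * D x.2 0 +
        4 * ∑ x ∈ Finset.HasAntidiagonal.antidiagonal n, R.coeff x.1 * Wk x.2 0 := by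
      rw [Finset.mul_sum, Finset.mul_sum, ← Finset.sum_add_distrib]
      refine Finset.sum_congr rfl fun x _ => ?_
      rw [D_succ]; ring
    rw [h3, h2] at h1
    linarith
  set i0 := R.natTrailingDegree with hi0
  have hq : R.coeff i0 ≠ 0 := Polynomial.coeff_natTrailingDegree_ne_zero.2 hR0
  obtain ⟨l, hl1, hl⟩ := Nat.exists_infinite_primes
    (P.natDegree + R.natDegree + 8 * (R.coeff i0).natAbs + 1)
  have h1 := hW (i0 + 2 * l) (by omega) (by omega)
  have h2 := congrArg (fun z : ℤ => (z : ZMod l)) h1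
  push_cast at h2
  rw [Finset.sum_eq_single (i0, 2 * l)] at h2
  · simp only at h2
    rw [Wk_top l hl] at h2
    have h3 : (((8 * R.coeff i0 : ℤ)) : ZMod l) = 0 := by
      push_cast; linear_combination h2
    have h4 := (ZMod.intCast_zmod_eq_zero_iff_dvd _ _).1 h3
    have h5 := Int.natAbs_le_of_dvd_ne_zero h4 (by simpa using hq)
    rw [Int.natAbs_mul] at h5
    simp at h5
    omega
  · rintro ⟨i, j⟩ hij hne
    rw [Finset.HasAntidiagonal.mem_antidiagonal] at hij
    simp only at hij ⊢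
    rcases lt_trichotomy i i0 with hlt | heq | hgt
    · rw [Polynomial.coeff_eq_zero_of_lt_natTrailingDegree hlt]; simp
    · exfalso; apply hne; subst heq; congr 1; omega
    · by_cases hd : R.natDegree < i
      · rw [Polynomial.coeff_eq_zero_of_natDegree_lt hd]; simp
      · rw [Wk_dvd l hl j (by omega) (by omega)]; simp
  · intro hn; exfalso; apply hn; simp

end Pool.Agent.H.MP_d25222_al
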