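import Mathlib

set_option autoImplicit false

open CategoryTheory CategoryTheory.MonoidalCategory CategoryTheory.Limits Module

namespace Pool.Agent.H.MP_d25222_al

abbrev k := ZMod 2
abbrev G := Multiplicative (ZMod 2 × ZMod 2)
abbrev RR := Rep.{0} k G

def ga : G := Multiplicative.ofAdd (1, 0)
def gb : G := Multiplicative.ofAdd (0, 1)

theorem G_cases : ∀ g : G, g = 1 ∨ g = ga ∨ g = gb ∨ g = ga * gb := by decide

theorem G_inv : ∀ g : G, g⁻¹ = g := by decide

theorem sum_G {M : Type*} [AddCommMonoid M] (f : G → M) :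
    ∑ g, f g = f 1 + f ga + f gb + f (ga * gb) := by
  have : (Finset.univ : Finset G) = {1, ga, gb, ga * gb} := by decide
  rw [this, Finset.sum_insert (by decide), Finset.sum_insert (by decide),
    Finset.sum_insert (by decide), Finset.sum_singleton]
  simp only [add_assoc]

theorem add_self {V : Type*} [AddCommGroup V] [Module k V] (v : V) : v + v = 0 := by
  have h : (1 : k) + 1 = 0 := by decide
  calc v + v = ((1 : k) + 1) • v := by rw [add_smul, one_smul]
    _ = 0 := by rw [h, zero_smul]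

section raw

noncomputable def d0 {V : Type} [AddCommGroup V] [Module k V] (N : V →ₗ[k] V) : ℤ :=
  (finrank k V : ℤ) - 4 * (finrank k (LinearMap.range N) : ℤ)

variable {V1 V2 W : Type} [AddCommGroup V1] [Module k V1] [AddCommGroup V2] [Module k V2]
  [AddCommGroup W] [Module k W]

theorem embed_aux (N1 : V1 →ₗ[k] V1) (N : W →ₗ[k] W) (f : V1 →ₗ[k] W)
    (hf : Function.Injective f) (h1 : ∀ v, f (N1 v) = N (f v)) :
    finrank k (LinearMap.range N1) = finrank k ((LinearMap.range f).map N) := by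
  have e : (LinearMap.range f).map N = (LinearMap.range N1).map f := by
    rw [← LinearMap.range_comp, ← LinearMap.range_comp]
    congr 1
    ext v
    simp [h1]
  rw [e]
  exact (Submodule.equivMapOfInjective f hf _).finrank_eq

theorem d0_embed (N1 : V1 →ₗ[k] V1) (N2 : V2 →ₗ[k] V2) (N : W →ₗ[k] W) (f : V1 →ₗ[k] W)
    (g : V2 →ₗ[k] W) (hf : Function.Injective f) (hg : Function.Injective g)
    (hr : LinearMap.range f = LinearMap.range g)
    (h1 : ∀ v, f (N1 v) = N (f v)) (h2 : ∀ v, g (N2 v) = N (g v)) :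
    d0 N1 = d0 N2 ∧ finrank k V1 = finrank k V2 := by
  have e1 : finrank k V1 = finrank k V2 := by
    rw [← LinearMap.finrank_range_of_inj hf, ← LinearMap.finrank_range_of_inj hg, hr]
  refine ⟨?_, e1⟩
  unfold d0
  rw [embed_aux N1 N f hf h1, embed_aux N2 N g hg h2, hr, e1]

theorem d0_prod [Module.Finite k V1] [Module.Finite k V2] (N1 : V1 →ₗ[k] V1)
    (N2 : V2 →ₗ[k] V2) : d0 (N1.prodMap N2) = d0 N1 + d0 N2 := by
  unfold d0
  have e : finrank k (LinearMap.range (N1.prodMap N2)) =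
      finrank k (LinearMap.range N1) + finrank k (LinearMap.range N2) := by
    rw [← Module.finrank_prod]
    let f : (LinearMap.range N1 × LinearMap.range N2) →ₗ[k] (V1 × V2) :=
      (LinearMap.range N1).subtype.prodMap (LinearMap.range N2).subtype
    have hf : Function.Injective f := by
      rintro ⟨a, b⟩ ⟨c, d⟩ h
      simp only [f, LinearMap.prodMap_apply, Submodule.subtype_apply, Prod.mk.injEq] at h
      exact Prod.ext (Subtype.ext h.1) (Subtype.ext h.2)
    rw [← LinearMap.finrank_range_of_inj hf]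
    have : LinearMap.range f = LinearMap.range (N1.prodMap N2) := by
      simp only [f, LinearMap.range_prodMap, Submodule.range_subtype]
    rw [this]
  rw [e, Module.finrank_prod]
  push_cast; ring

end raw

noncomputable def xo (X : RR) : X.V →ₗ[k] X.V := X.ρ ga + LinearMap.id
noncomputable def yo (X : RR) : X.V →ₗ[k] X.V := X.ρ gb + LinearMap.id
noncomputable def Nm (X : RR) : X.V →ₗ[k] X.V := xo X ∘ₗ yo X
noncomputable def dl (X : RR) : ℤ := d0 (Nm X)

theorem rho_a (X : RR) (v : X.V) : X.ρ ga v = v + xo X v := by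
  simp only [xo, LinearMap.add_apply, LinearMap.id_apply]
  rw [add_comm (X.ρ ga v), ← add_assoc, add_self, zero_add]

theorem rho_b (X : RR) (v : X.V) : X.ρ gb v = v + yo X v := by
  simp only [yo, LinearMap.add_apply, LinearMap.id_apply]
  rw [add_comm (X.ρ gb v), ← add_assoc, add_self, zero_add]

theorem rho_mul (X : RR) (g h : G) (v : X.V) : X.ρ (g * h) v = X.ρ g (X.ρ h v) := by
  simp

theorem xo_xo (X : RR) (v : X.V) : xo X (xo X v) = 0 := by
  have h : ga * ga = 1 := by decide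
  simp only [xo, LinearMap.add_apply, LinearMap.id_apply, map_add]
  rw [← rho_mul, h, map_one, Module.End.one_apply, add_comm (X.ρ ga v) v, add_self]

theorem yo_yo (X : RR) (v : X.V) : yo X (yo X v) = 0 := by
  have h : gb * gb = 1 := by decide
  simp only [yo, LinearMap.add_apply, LinearMap.id_apply, map_add]
  rw [← rho_mul, h, map_one, Module.End.one_apply, add_comm (X.ρ gb v) v, add_self]

theorem yo_xo (X : RR) (v : X.V) : yo X (xo X v) = xo X (yo X v) := by
  simp only [xo, yo, LinearMap.add_apply, LinearMap.id_apply, map_add]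
  rw [← rho_mul, ← rho_mul, mul_comm gb ga]
  abel

theorem Nm_apply (X : RR) (v : X.V) : Nm X v = xo X (yo X v) := rfl

theorem hom_xo {X Y : RR} (f : X ⟶ Y) (v : X.V) : f.hom (xo X v) = xo Y (f.hom v) := by
  simp only [xo, LinearMap.add_apply, LinearMap.id_apply, map_add, Rep.hom_comm_apply]

theorem hom_yo {X Y : RR} (f : X ⟶ Y) (v : X.V) : f.hom (yo X v) = yo Y (f.hom v) := by
  simp only [yo, LinearMap.add_apply, LinearMap.id_apply, map_add, Rep.hom_comm_apply]

theorem hom_Nm {X Y : RR} (f : X ⟶ Y) (v : X.V) : f.hom (Nm X v) = Nm Y (f.hom v) := by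
  rw [Nm_apply, Nm_apply, hom_xo, hom_yo]

noncomputable def mkHom {X Y : RR} (f : X.V →ₗ[k] Y.V) (hx : ∀ v, f (xo X v) = xo Y (f v))
    (hy : ∀ v, f (yo X v) = yo Y (f v)) : X ⟶ Y :=
  Rep.ofHom ⟨f, fun g => by
    have ha : ∀ v, f (X.ρ ga v) = Y.ρ ga (f v) := fun v => by
      rw [rho_a, rho_a, map_add, hx]
    have hb : ∀ v, f (X.ρ gb v) = Y.ρ gb (f v) := fun v => by
      rw [rho_b, rho_b, map_add, hy]
    ext v
    rcases G_cases g with rfl | rfl | rfl | rfl
    · simp
    · exact ha v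
    · exact hb v
    · simp only [LinearMap.comp_apply]
      rw [rho_mul, rho_mul, ha, hb]⟩

@[simp] theorem mkHom_apply {X Y : RR} (f : X.V →ₗ[k] Y.V) (hx) (hy) (v : X.V) :
    (mkHom f hx hy).hom v = f v := rfl

theorem dl_iso {X Y : RR} (e : X ≅ Y) : dl X = dl Y := by
  refine (d0_embed (Nm X) (Nm Y) (Nm Y) e.hom.hom.toLinearMap LinearMap.id ?_
    Function.injective_id ?_ (fun v => hom_Nm e.hom v) (fun _ => rfl)).1
  · intro a b h
    have := congrArg e.inv.hom h
    simpa using this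
  · rw [LinearMap.range_id, LinearMap.range_eq_top]
    intro y
    exact ⟨e.inv.hom y, by simp⟩

theorem finite_of_inj {X Y : RR} [Module.Finite k Y.V] (f : X ⟶ Y) (g : Y ⟶ X)
    (h : f ≫ g = 𝟙 X) : Module.Finite k X.V := by
  refine Module.Finite.of_injective f.hom.toLinearMap ?_
  intro a b hab
  have h1 : ∀ v, g.hom (f.hom v) = v := fun v => by
    have := congrArg (fun t : X ⟶ X => t.hom v) h
    simpa using this
  rw [← h1 a, ← h1 b]
  exact congrArg g.hom hab

theorem dl_split {S X Y : RR} [Module.Finite k X.V] [Module.Finite k Y.V]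
    (i1 : X ⟶ S) (i2 : Y ⟶ S) (p1 : S ⟶ X) (p2 : S ⟶ Y)
    (h11 : i1 ≫ p1 = 𝟙 X) (h12 : i1 ≫ p2 = 0) (h21 : i2 ≫ p1 = 0) (h22 : i2 ≫ p2 = 𝟙 Y)
    (ht : p1 ≫ i1 + p2 ≫ i2 = 𝟙 S) :
    dl S = dl X + dl Y ∧ finrank k S.V = finrank k X.V + finrank k Y.V := by
  have e11 : ∀ v, p1.hom (i1.hom v) = v := fun v => by
    have := congrArg (fun t : X ⟶ X => t.hom v) h11
    simpa using this
  have e22 : ∀ v, p2.hom (i2.hom v) = v := fun v => by
    have := congrArg (fun t : Y ⟶ Y => t.hom v) h22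
    simpa using this
  have e12 : ∀ v, p2.hom (i1.hom v) = 0 := fun v => by
    have := congrArg (fun t : X ⟶ Y => t.hom v) h12
    simpa using this
  have e21 : ∀ v, p1.hom (i2.hom v) = 0 := fun v => by
    have := congrArg (fun t : Y ⟶ X => t.hom v) h21
    simpa using this
  have et : ∀ v, i1.hom (p1.hom v) + i2.hom (p2.hom v) = v := fun v => by
    have := congrArg (fun t : S ⟶ S => t.hom v) ht
    simpa [Rep.add_hom] using this
  have := d0_embed (Nm S) ((Nm X).prodMap (Nm Y)) ((Nm X).prodMap (Nm Y))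
    (p1.hom.toLinearMap.prod p2.hom.toLinearMap) LinearMap.id ?_ Function.injective_id ?_
    (fun v => Prod.ext (hom_Nm p1 v) (hom_Nm p2 v)) (fun _ => rfl)
  · rw [d0_prod, Module.finrank_prod] at this
    exact this
  · intro a b h
    rw [← et a, ← et b]
    have h1 : p1.hom a = p1.hom b := congrArg Prod.fst h
    have h2 : p2.hom a = p2.hom b := congrArg Prod.snd h
    rw [h1, h2]
  · rw [LinearMap.range_id, LinearMap.range_eq_top]
    rintro ⟨x, y⟩
    refine ⟨i1.hom x + i2.hom y, Prod.ext ?_ ?_⟩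
    · change p1.hom (i1.hom x + i2.hom y) = x
      rw [map_add, e11, e21, add_zero]
    · change p2.hom (i1.hom x + i2.hom y) = y
      rw [map_add, e12, e22, zero_add]

noncomputable def avg {X Y : RR} (f : X.V →ₗ[k] Y.V) : X ⟶ Y :=
  Rep.ofHom ⟨∑ g : G, Y.ρ g ∘ₗ f ∘ₗ X.ρ g⁻¹, fun h => by
    ext v
    simp only [LinearMap.comp_apply, LinearMap.sum_apply, map_sum]
    refine (Fintype.sum_equiv (Equiv.mulLeft h) _ _ fun g => ?_).symm
    simp only [Equiv.coe_mulLeft, mul_inv_rev]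
    rw [rho_mul, ← rho_mul X, mul_assoc, inv_mul_cancel, mul_one]⟩

theorem avg_apply {X Y : RR} (f : X.V →ₗ[k] Y.V) (v : X.V) :
    (avg f).hom v = ∑ g : G, Y.ρ g (f (X.ρ g⁻¹ v)) := by
  change (∑ g : G, Y.ρ g ∘ₗ f ∘ₗ X.ρ g⁻¹) v = _
  simp only [LinearMap.comp_apply, LinearMap.sum_apply]

def Hig (P : RR) : Prop := ∃ t : P.V →ₗ[k] P.V, ∀ v, (avg t).hom v = v

theorem Hig.lift {P Q C : RR} (hP : Hig P) (p : P ⟶ C) (q : Q ⟶ C)
    (hq : Function.Surjective q.hom) : ∃ a : P ⟶ Q, ∀ v, q.hom (a.hom v) = p.hom v := by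
  obtain ⟨t, ht⟩ := hP
  obtain ⟨s, hs⟩ := q.hom.toLinearMap.exists_rightInverse_of_surjective
    (LinearMap.range_eq_top.2 hq)
  have hs' : ∀ c, q.hom (s c) = c := fun c => LinearMap.congr_fun hs c
  refine ⟨avg (s ∘ₗ p.hom.toLinearMap ∘ₗ t), fun v => ?_⟩
  conv_rhs => rw [← ht v]
  rw [avg_apply, avg_apply, map_sum, map_sum]
  refine Finset.sum_congr rfl fun g _ => ?_
  rw [Rep.hom_comm_apply, Rep.hom_comm_apply]
  simp only [LinearMap.comp_apply]
  rw [hs']; rfl

theorem Hig.retract {P X : RR} (hP : Hig P) (i : P ⟶ X)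
    (hi : Function.Injective i.hom) : ∃ r : X ⟶ P, ∀ v, r.hom (i.hom v) = v := by
  obtain ⟨t, ht⟩ := hP
  obtain ⟨s, hs⟩ := i.hom.toLinearMap.exists_leftInverse_of_injective
    (LinearMap.ker_eq_bot.2 hi)
  have hs' : ∀ c, s (i.hom c) = c := fun c => LinearMap.congr_fun hs c
  refine ⟨avg (t ∘ₗ s), fun v => ?_⟩
  conv_rhs => rw [← ht v]
  rw [avg_apply, avg_apply]
  refine Finset.sum_congr rfl fun g _ => ?_
  rw [← Rep.hom_comm_apply]
  simp only [LinearMap.comp_apply]
  rw [hs']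

theorem Hig.of_retract {P F : RR} (hF : Hig F) (s : P ⟶ F) (p : F ⟶ P)
    (h : ∀ v, p.hom (s.hom v) = v) : Hig P := by
  obtain ⟨t, ht⟩ := hF
  refine ⟨p.hom.toLinearMap ∘ₗ t ∘ₗ s.hom.toLinearMap, fun v => ?_⟩
  conv_rhs => rw [← h v, ← ht (s.hom v)]
  rw [avg_apply, avg_apply, map_sum]
  refine Finset.sum_congr rfl fun g _ => ?_
  rw [Rep.hom_comm_apply p, ← Rep.hom_comm_apply s]
  rfl

theorem Hig.projective {P : RR} (hP : Hig P) : Projective P where
  factors f e he := by
    obtain ⟨a, ha⟩ := hP.lift f e ((Rep.epi_iff_surjective e).1 he)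
    exact ⟨a, by ext v; exact ha v⟩

theorem Hig.tensor {P : RR} (hP : Hig P) (W : RR) : Hig (W ⊗ P) := by
  obtain ⟨t, ht⟩ := hP
  refine ⟨LinearMap.lTensor W.V t, fun v => ?_⟩
  induction v using TensorProduct.induction_on with
  | zero => exact map_zero _
  | add x y hx hy =>
    have := map_add (avg (X := W ⊗ P) (Y := W ⊗ P) (LinearMap.lTensor W.V t)).hom x y
    rw [hx, hy] at this
    exact this
  | tmul w v =>
    rw [avg_apply]
    conv_rhs => rw [← ht v, avg_apply, TensorProduct.tmul_sum]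
    refine Finset.sum_congr rfl fun g _ => ?_
    change W.ρ g (W.ρ g⁻¹ w) ⊗ₜ[k] P.ρ g (t (P.ρ g⁻¹ v)) = _
    rw [← rho_mul, mul_inv_cancel, map_one, Module.End.one_apply]

theorem Hig.ker_Nm {P : RR} (hP : Hig P) (v : P.V) (hv : Nm P v = 0) :
    ∃ v1 v2, v = xo P v1 + yo P v2 := by
  obtain ⟨t, ht⟩ := hP
  have h := ht v
  rw [avg_apply, sum_G] at h
  simp only [G_inv, map_one, Module.End.one_apply] at h
  have hN : v + P.ρ ga v + P.ρ gb v + P.ρ (ga * gb) v = 0 := by
    rw [← hv, Nm_apply, rho_mul]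
    simp only [xo, yo, LinearMap.add_apply, LinearMap.id_apply, map_add]
    abel
  have ht0 : t v + t (P.ρ ga v) + t (P.ρ gb v) + t (P.ρ (ga * gb) v) = 0 := by
    rw [← map_add, ← map_add, ← map_add, hN, map_zero]
  set w1 := t (P.ρ ga v)
  set w2 := t (P.ρ gb v)
  set w3 := t (P.ρ (ga * gb) v)
  refine ⟨w1 + w3 + yo P w3, w2 + w3, ?_⟩
  rw [rho_mul P ga gb w3, rho_b P w3, rho_a, rho_a, rho_b] at h
  simp only [map_add] at h ⊢
  have : v = (t v + w1 + w2 + w3) + (xo P w1 + xo P w3 + xo P (yo P w3) +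
      (yo P w2 + yo P w3)) := by
    conv_lhs => rw [← h]
    abel
  rw [this, ht0, zero_add]

end Pool.Agent.H.MP_d25222_al
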