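import Pool.Agent.H.MP_d25222_al.Core

set_option autoImplicit false

open CategoryTheory CategoryTheory.MonoidalCategory CategoryTheory.Limits Module

namespace Pool.Agent.H.MP_d25222_al

section mk
variable {V : Type} [AddCommGroup V] [Module k V]

noncomputable def mkRho (x y : Module.End k V) (hx : x * x = 0) (hy : y * y = 0)
    (hxy : y * x = x * y) : Representation k G V where
  toFun g := (1 + (Multiplicative.toAdd g).1 • x) * (1 + (Multiplicative.toAdd g).2 • y)
  map_one' := by simp
  map_mul' g h := by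
    simp only [toAdd_mul, Prod.fst_add, Prod.snd_add]
    generalize (Multiplicative.toAdd g).1 = a
    generalize (Multiplicative.toAdd g).2 = b
    generalize (Multiplicative.toAdd h).1 = c
    generalize (Multiplicative.toAdd h).2 = d
    have e1 : (1 + a • x) * (1 + c • x) = 1 + (a + c) • x := by
      simp only [mul_add, add_mul, one_mul, mul_one, smul_mul_smul_comm, hx, smul_zero,
        add_smul]
      abel
    have e2 : (1 + b • y) * (1 + d • y) = 1 + (b + d) • y := by
      simp only [mul_add, add_mul, one_mul, mul_one, smul_mul_smul_comm, hy, smul_zero,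
        add_smul]
      abel
    have e3 : (1 + b • y) * (1 + c • x) = (1 + c • x) * (1 + b • y) := by
      simp only [mul_add, add_mul, one_mul, mul_one, smul_mul_smul_comm, hxy, mul_comm b c]
      abel
    rw [← e1, ← e2]
    simp only [mul_assoc]
    rw [← mul_assoc (1 + b • y), e3, mul_assoc]

noncomputable abbrev mkRep (x y : Module.End k V) (hx : x * x = 0) (hy : y * y = 0)
    (hxy : y * x = x * y) : RR := Rep.of (mkRho x y hx hy hxy)

theorem xo_mk (x y : Module.End k V) (hx : x * x = 0) (hy : y * y = 0)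
    (hxy : y * x = x * y) (v : V) : xo (mkRep x y hx hy hxy) v = x v := by
  change ((1 + (1 : k) • x) * (1 + (0 : k) • y)) v + v = x v
  simp only [one_smul, zero_smul, add_zero, mul_one, LinearMap.add_apply, Module.End.one_apply]
  rw [add_comm v, add_assoc, add_self, add_zero]

theorem yo_mk (x y : Module.End k V) (hx : x * x = 0) (hy : y * y = 0)
    (hxy : y * x = x * y) (v : V) : yo (mkRep x y hx hy hxy) v = y v := by
  change ((1 + (0 : k) • x) * (1 + (1 : k) • y)) v + v = y v
  simp only [one_smul, zero_smul, add_zero, one_mul, LinearMap.add_apply, Module.End.one_apply]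
  rw [add_comm v, add_assoc, add_self, add_zero]

end mk

section free
variable (U : Type) [AddCommGroup U] [Module k U]

def fx : Module.End k (U × U × U × U) where
  toFun c := (0, c.1, 0, c.2.2.1)
  map_add' a b := by simp
  map_smul' a b := by simp

def fy : Module.End k (U × U × U × U) where
  toFun c := (0, 0, c.1, c.2.1)
  map_add' a b := by simp
  map_smul' a b := by simp

noncomputable abbrev Fr : RR :=
  mkRep (fx U) (fy U) (LinearMap.ext fun _ => rfl) (LinearMap.ext fun _ => rfl)
    (LinearMap.ext fun _ => rfl)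

variable {U}

theorem xo_Fr (c : U × U × U × U) : xo (Fr U) c = (0, c.1, 0, c.2.2.1) := xo_mk _ _ _ _ _ _
theorem yo_Fr (c : U × U × U × U) : yo (Fr U) c = (0, 0, c.1, c.2.1) := yo_mk _ _ _ _ _ _

variable (U) in
def fth : (U × U × U × U) →ₗ[k] (U × U × U × U) where
  toFun c := (c.1 + c.2.1 + c.2.2.1 + c.2.2.2, 0, 0, 0)
  map_add' a b := by simp; abel
  map_smul' a b := by simp

variable (U) in
theorem Hig_Fr : Hig (Fr U) := by
  refine ⟨fth U, fun v => ?_⟩
  have h1 : ∀ c : U × U × U × U, (Fr U).ρ 1 c = c := fun c => by simp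
  have ha : ∀ c : U × U × U × U, (Fr U).ρ ga c = c + (0, c.1, 0, c.2.2.1) := fun c => by
    rw [rho_a, xo_Fr]
  have hb : ∀ c : U × U × U × U, (Fr U).ρ gb c = c + (0, 0, c.1, c.2.1) := fun c => by
    rw [rho_b, yo_Fr]
  have hab : ∀ c : U × U × U × U, (Fr U).ρ (ga * gb) c = (Fr U).ρ ga ((Fr U).ρ gb c) :=
    fun c => rho_mul _ _ _ _
  rw [avg_apply, sum_G, G_inv, G_inv, G_inv, G_inv, h1, h1, hab, hab, ha, ha, ha, ha, hb, hb,
    hb]
  obtain ⟨a, b, c, d⟩ := v
  simp only [fth, LinearMap.coe_mk, AddHom.coe_mk, Prod.mk_add_mk, add_zero, zero_add,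
    Prod.mk.injEq]
  have ha := add_self a
  have hb := add_self b
  have hc := add_self c
  have hd := add_self d
  refine ⟨?_, ?_, ?_, ?_⟩
  · linear_combination (norm := abel) (4 : ℤ) • ha + (3 : ℤ) • hb + (3 : ℤ) • hc + (2 : ℤ) • hd
  · linear_combination (norm := abel) (3 : ℤ) • ha + (1 : ℤ) • hb + (2 : ℤ) • hc + (1 : ℤ) • hd
  · linear_combination (norm := abel) (3 : ℤ) • ha + (2 : ℤ) • hb + (1 : ℤ) • hc + (1 : ℤ) • hd
  · linear_combination (norm := abel) (2 : ℤ) • ha + (1 : ℤ) • hb + (1 : ℤ) • hc

theorem finrank_Fr [Module.Finite k U] : finrank k (Fr U).V = 4 * finrank k U := by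
  change finrank k (U × U × U × U) = _
  simp only [Module.finrank_prod]; ring

instance [Module.Finite k U] : Module.Finite k (Fr U).V :=
  inferInstanceAs (Module.Finite k (U × U × U × U))

noncomputable def liftL {X : RR} (i : U →ₗ[k] X.V) : (U × U × U × U) →ₗ[k] X.V where
  toFun c := i c.1 + xo X (i c.2.1) + yo X (i c.2.2.1) + xo X (yo X (i c.2.2.2))
  map_add' a b := by simp only [Prod.fst_add, Prod.snd_add, map_add]; abel
  map_smul' a b := by simp

theorem liftL_apply {X : RR} (i : U →ₗ[k] X.V) (c : U × U × U × U) :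
    liftL i c = i c.1 + xo X (i c.2.1) + yo X (i c.2.2.1) + xo X (yo X (i c.2.2.2)) := rfl

noncomputable def flift {X : RR} (i : U →ₗ[k] X.V) : Fr U ⟶ X :=
  mkHom (liftL i)
    (fun v => by
      rw [xo_Fr, liftL_apply, liftL_apply]
      simp only [map_zero, map_add, xo_xo, add_zero, zero_add])
    (fun v => by
      rw [yo_Fr, liftL_apply, liftL_apply]
      simp only [map_zero, map_add, yo_yo, yo_xo, add_zero, zero_add])

theorem lift_apply {X : RR} (i : U →ₗ[k] X.V) (c : U × U × U × U) :
    (flift i).hom c = i c.1 + xo X (i c.2.1) + yo X (i c.2.2.1) + xo X (yo X (i c.2.2.2)) := rfl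

theorem lift_inj {X : RR} (i : U →ₗ[k] X.V) (hi : ∀ u, Nm X (i u) = 0 → u = 0) :
    Function.Injective (flift i).hom := by
  refine (injective_iff_map_eq_zero (flift i).hom).2 ?_
  rintro ⟨a, b, c, d⟩ h
  rw [lift_apply] at h
  simp only at h
  have ha : a = 0 := hi _ (by
    have := congrArg (fun v => xo X (yo X v)) h
    simpa only [Nm_apply, map_add, yo_xo, yo_yo, xo_xo, map_zero, add_zero] using this)
  subst ha
  have hb : b = 0 := hi _ (by
    have := congrArg (fun v => yo X v) h
    simpa only [Nm_apply, map_add, yo_xo, yo_yo, xo_xo, map_zero, add_zero, zero_add] using this)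
  have hc : c = 0 := hi _ (by
    have := congrArg (fun v => xo X v) h
    simpa only [Nm_apply, map_add, yo_xo, yo_yo, xo_xo, map_zero, add_zero, zero_add] using this)
  subst hb hc
  have hd : d = 0 := hi _ (by
    simpa only [Nm_apply, map_add, yo_xo, yo_yo, xo_xo, map_zero, add_zero, zero_add] using h)
  subst hd
  rfl

end free

theorem exists_sec (X : RR) : ∃ i : LinearMap.range (Nm X) →ₗ[k] X.V,
    ∀ u, Nm X (i u) = u.1 := by
  obtain ⟨s, hs⟩ := (Nm X).rangeRestrict.exists_rightInverse_of_surjective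
    (LinearMap.range_rangeRestrict _)
  exact ⟨s, fun u => congrArg Subtype.val (LinearMap.congr_fun hs u)⟩

theorem Hig.dl_zero {P : RR} [Module.Finite k P.V] (hP : Hig P) : dl P = 0 := by
  obtain ⟨i, hi⟩ := exists_sec P
  have h1 := lift_inj i (fun u hu => Subtype.ext (by rw [← hi u]; exact hu))
  have key : ∀ v : P.V, ∃ u v1 v2, v = i u + xo P v1 + yo P v2 := by
    intro v
    let u : LinearMap.range (Nm P) := ⟨Nm P v, LinearMap.mem_range_self _ _⟩
    obtain ⟨v1, v2, h⟩ := hP.ker_Nm (v + i u) (by rw [map_add, hi]; exact add_self _)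
    refine ⟨u, v1, v2, ?_⟩
    rw [add_assoc, ← h, add_comm v, ← add_assoc, add_self, zero_add]
  have h2 : Function.Surjective (flift i).hom := by
    intro v
    obtain ⟨u, v1, v2, h⟩ := key v
    obtain ⟨u1, v11, v12, h1⟩ := key v1
    obtain ⟨u2, v21, v22, h2⟩ := key v2
    let u3 : LinearMap.range (Nm P) := ⟨Nm P (v12 + v21), LinearMap.mem_range_self _ _⟩
    refine ⟨(u, u1, u2, u3), ?_⟩
    rw [lift_apply]
    have h3 : xo P (yo P (i u3)) = xo P (yo P (v12 + v21)) := hi u3
    simp only
    rw [h3, h, h1, h2]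
    simp only [map_add, xo_xo, yo_yo, yo_xo, add_zero]
    abel
  have e := (LinearEquiv.ofBijective (flift i).hom.toLinearMap ⟨h1, h2⟩).finrank_eq
  rw [finrank_Fr] at e
  unfold dl d0
  rw [← e]; push_cast; ring

theorem Hig.of_projective {P : RR} (hP : Projective P) : Hig P := by
  let p : Fr P.V ⟶ P := flift LinearMap.id
  have hp : Function.Surjective p.hom := fun v => ⟨(v, 0, 0, 0), by
    simp only [p]; rw [lift_apply]; simp⟩
  have : Epi p := (Rep.epi_iff_surjective p).2 hp
  refine (Hig_Fr P.V).of_retract (Projective.factorThru (𝟙 P) p) p fun v => ?_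
  exact congrArg (fun t : P ⟶ P => t.hom v) (Projective.factorThru_comp (𝟙 P) p)

theorem dl_biprod {X N P : RR} [Module.Finite k X.V] (e : X ≅ N ⊞ P) :
    Module.Finite k N.V ∧ Module.Finite k P.V ∧ dl X = dl N + dl P ∧
      finrank k X.V = finrank k N.V + finrank k P.V := by
  have hN : Module.Finite k N.V :=
    finite_of_inj (biprod.inl ≫ e.inv) (e.hom ≫ biprod.fst) (by simp)
  have hP : Module.Finite k P.V :=
    finite_of_inj (biprod.inr ≫ e.inv) (e.hom ≫ biprod.snd) (by simp)
  refine ⟨hN, hP, dl_split (biprod.inl ≫ e.inv) (biprod.inr ≫ e.inv) (e.hom ≫ biprod.fst)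
    (e.hom ≫ biprod.snd) (by simp) (by simp) (by simp) (by simp) ?_⟩
  have : e.hom ≫ (biprod.fst ≫ biprod.inl + biprod.snd ≫ biprod.inr) ≫ e.inv = 𝟙 X := by
    rw [biprod.total]; simp
  rw [← this]
  simp only [Preadditive.add_comp, Preadditive.comp_add, Category.assoc]

theorem core_eq (X : RR) [Module.Finite k X.V] :
    ((sInf {d : ℕ | ∃ N P' : RR, Projective P' ∧ Nonempty (X ≅ N ⊞ P') ∧
      Module.finrank k N.V = d} : ℕ) : ℤ) = dl X := by
  obtain ⟨i, hi⟩ := exists_sec X
  have h1 := lift_inj i (fun u hu => Subtype.ext (by rw [← hi u]; exact hu))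
  obtain ⟨r, hr⟩ := (Hig_Fr _).retract (flift i) h1
  let K : Submodule k X.V := LinearMap.ker r.hom.toLinearMap
  have hK : ∀ g, K ≤ K.comap (X.ρ g) := by
    intro g v hv
    have hv' : r.hom v = 0 := hv
    change r.hom (X.ρ g v) = 0
    rw [Rep.hom_comm_apply, hv', map_zero]
  let N : RR := X.subrepresentation K hK
  let j : N ⟶ X := X.subtype K hK
  let pL : X.V →ₗ[k] K := LinearMap.codRestrict K
    (LinearMap.id - (flift i).hom.toLinearMap ∘ₗ r.hom.toLinearMap) (fun v => by
      change r.hom (v - (flift i).hom (r.hom v)) = 0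
      rw [map_sub, hr, sub_self])
  have pL_val : ∀ v, (pL v).1 = v - (flift i).hom (r.hom v) := fun v => rfl
  let p : X ⟶ N := Rep.ofHom ⟨pL, fun g => by
    ext v
    change X.ρ g v - (flift i).hom (r.hom (X.ρ g v)) = X.ρ g (v - (flift i).hom (r.hom v))
    rw [map_sub, Rep.hom_comm_apply, Rep.hom_comm_apply]⟩
  have e : X ≅ N ⊞ Fr (LinearMap.range (Nm X)) :=
    { hom := biprod.lift p r
      inv := biprod.desc j (flift i)
      hom_inv_id := by
        rw [biprod.lift_desc]
        ext v
        change (v - (flift i).hom (r.hom v)) + (flift i).hom (r.hom v) = v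
        rw [sub_add_cancel]
      inv_hom_id := by
        apply biprod.hom_ext' <;> apply biprod.hom_ext <;> simp only [Category.assoc,
          biprod.inl_desc_assoc, biprod.inr_desc_assoc, biprod.lift_fst, biprod.lift_snd,
          Category.id_comp, biprod.inl_fst, biprod.inl_snd, biprod.inr_fst, biprod.inr_snd]
        · refine Rep.hom_ext (Representation.IntertwiningMap.ext (LinearMap.ext fun v => ?_))
          apply Subtype.ext
          have hv : r.hom v.1 = 0 := v.2
          change v.1 - (flift i).hom (r.hom v.1) = v.1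
          rw [hv, map_zero, sub_zero]
        · refine Rep.hom_ext (Representation.IntertwiningMap.ext (LinearMap.ext fun v => ?_))
          exact v.2
        · refine Rep.hom_ext (Representation.IntertwiningMap.ext (LinearMap.ext fun v => ?_))
          apply Subtype.ext
          change (flift i).hom v - (flift i).hom (r.hom ((flift i).hom v)) = 0
          rw [hr, sub_self]
        · refine Rep.hom_ext (Representation.IntertwiningMap.ext (LinearMap.ext fun v => ?_))
          exact hr v }
  obtain ⟨_, _, _, h4⟩ := dl_biprod e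
  rw [finrank_Fr] at h4
  have hd : (finrank k N.V : ℤ) = dl X := by
    unfold dl d0; rw [h4]; push_cast; ring
  rw [← hd]
  congr 1
  apply le_antisymm
  · exact Nat.sInf_le ⟨N, _, (Hig_Fr _).projective, ⟨e⟩, rfl⟩
  · refine le_csInf ⟨_, N, _, (Hig_Fr _).projective, ⟨e⟩, rfl⟩ ?_
    rintro d ⟨N', P', hP', ⟨e'⟩, rfl⟩
    obtain ⟨_, _, h3, _⟩ := dl_biprod e'
    rw [(Hig.of_projective hP').dl_zero, add_zero] at h3
    have : dl N' ≤ finrank k N'.V := by
      unfold dl d0
      have := Int.natCast_nonneg (finrank k (LinearMap.range (Nm N')))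
      linarith
    have : (finrank k N.V : ℤ) ≤ finrank k N'.V := by rw [hd, h3]; exact this
    exact_mod_cast this

end Pool.Agent.H.MP_d25222_al
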