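import Pool.Agent.H.MP_d25222_al.Free
import Pool.Agent.H.MP_d25222_al.Comb

set_option autoImplicit false

open CategoryTheory CategoryTheory.MonoidalCategory CategoryTheory.Limits Module

namespace Pool.Agent.H.MP_d25222_al

structure SES {A P C : RR} (i : A ⟶ P) (p : P ⟶ C) : Prop where
  inj : Function.Injective i.hom.toLinearMap
  surj : Function.Surjective p.hom.toLinearMap
  ex : Function.Exact i.hom.toLinearMap p.hom.toLinearMap
  hig : Hig P

theorem SES.tensor {A P C : RR} {i : A ⟶ P} {p : P ⟶ C} (h : SES i p) (W : RR) :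
    SES (W ◁ i) (W ◁ p) where
  inj := Module.Flat.lTensor_preserves_injective_linearMap _ h.inj
  surj := LinearMap.lTensor_surjective _ h.surj
  ex := lTensor_exact W.V h.ex h.surj
  hig := h.hig.tensor W

theorem SES.comp_iso {A P C C' : RR} {i : A ⟶ P} {p : P ⟶ C} (h : SES i p) (e : C ≅ C') :
    SES i (p ≫ e.hom) where
  inj := h.inj
  surj := fun c => by
    obtain ⟨v, hv⟩ := h.surj (e.inv.hom c)
    refine ⟨v, ?_⟩
    change e.hom.hom (p.hom.toLinearMap v) = c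
    rw [hv]; simp
  ex := fun v => by
    rw [← h.ex v]
    change e.hom.hom (p.hom v) = 0 ↔ p.hom v = 0
    constructor
    · intro h1
      have := congrArg e.inv.hom h1
      simpa using this
    · intro h1; rw [h1, map_zero]
  hig := h.hig

theorem schanuel {A P B Q C : RR} [Module.Finite k A.V] [Module.Finite k P.V]
    [Module.Finite k B.V] [Module.Finite k Q.V] {i : A ⟶ P} {p : P ⟶ C} {j : B ⟶ Q}
    {q : Q ⟶ C} (h1 : SES i p) (h2 : SES j q) : dl A = dl B := by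
  obtain ⟨a, ha⟩ := h1.hig.lift p q h2.surj
  obtain ⟨b, hb⟩ := h2.hig.lift q p h1.surj
  let f : (A.V × Q.V) →ₗ[k] (P.V × Q.V) :=
    (i.hom.toLinearMap.coprod b.hom.toLinearMap).prod (LinearMap.snd _ _ _)
  let g : (P.V × B.V) →ₗ[k] (P.V × Q.V) :=
    (LinearMap.fst _ _ _).prod (a.hom.toLinearMap.coprod j.hom.toLinearMap)
  have f_ap : ∀ x, f x = (i.hom x.1 + b.hom x.2, x.2) := fun _ => rfl
  have g_ap : ∀ x, g x = (x.1, a.hom x.1 + j.hom x.2) := fun _ => rfl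
  have pi0 : ∀ x, p.hom (i.hom x) = 0 := fun x => (h1.ex _).2 ⟨x, rfl⟩
  have qj0 : ∀ x, q.hom (j.hom x) = 0 := fun x => (h2.ex _).2 ⟨x, rfl⟩
  have key := (d0_embed ((Nm A).prodMap (Nm Q)) ((Nm P).prodMap (Nm B))
    ((Nm P).prodMap (Nm Q)) f g ?_ ?_ ?_ ?_ ?_).1
  · rw [d0_prod, d0_prod] at key
    have e1 : d0 (Nm P) = 0 := h1.hig.dl_zero
    have e2 : d0 (Nm Q) = 0 := h2.hig.dl_zero
    rw [e1, e2] at key
    unfold dl; linarith
  · rintro ⟨x, y⟩ ⟨x', y'⟩ h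
    rw [f_ap, f_ap, Prod.mk.injEq] at h
    obtain ⟨e1, e2⟩ := h
    simp only at e1 e2
    subst e2
    rw [h1.inj (add_right_cancel e1)]
  · rintro ⟨x, y⟩ ⟨x', y'⟩ h
    rw [g_ap, g_ap, Prod.mk.injEq] at h
    obtain ⟨e1, e2⟩ := h
    simp only at e1 e2
    subst e1
    rw [h2.inj (add_left_cancel e2)]
  · ext ⟨u, v⟩
    constructor
    · rintro ⟨⟨x, y⟩, h⟩
      rw [f_ap, Prod.mk.injEq] at h
      obtain ⟨e1, e2⟩ := h
      simp only at e1 e2
      subst e2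
      obtain ⟨z, hz⟩ := (h2.ex (y - a.hom u)).1 (by
        change q.hom (y - a.hom u) = 0
        rw [map_sub, ha, ← e1, map_add, pi0, hb, zero_add, sub_self])
      refine ⟨(u, z), ?_⟩
      rw [g_ap]
      have hz' : j.hom z = y - a.hom u := hz
      simp only [hz', add_sub_cancel]
    · rintro ⟨⟨x, y⟩, h⟩
      rw [g_ap, Prod.mk.injEq] at h
      obtain ⟨e1, e2⟩ := h
      simp only at e1 e2
      subst e1
      obtain ⟨z, hz⟩ := (h1.ex (x - b.hom v)).1 (by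
        change p.hom (x - b.hom v) = 0
        rw [map_sub, hb, ← e2, map_add, qj0, ha, add_zero, sub_self])
      refine ⟨(z, v), ?_⟩
      rw [f_ap]
      have hz' : i.hom z = x - b.hom v := hz
      simp only [hz', sub_add_cancel]
  · rintro ⟨x, y⟩
    rw [f_ap, f_ap]
    simp only [LinearMap.prodMap_apply, map_add, hom_Nm]
  · rintro ⟨x, y⟩
    rw [g_ap, g_ap]
    simp only [LinearMap.prodMap_apply, map_add, hom_Nm]

section kron
variable {T S T' : Type} [AddCommGroup T] [Module k T] [AddCommGroup S] [Module k S]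
  [AddCommGroup T'] [Module k T']

def kx (a : T →ₗ[k] S) : Module.End k (T × S) where
  toFun c := (0, a c.1)
  map_add' a b := by simp
  map_smul' a b := by simp

theorem kx_mul (a b : T →ₗ[k] S) : kx a * kx b = 0 := by
  refine LinearMap.ext fun c => ?_
  change ((0 : T), a 0) = 0
  rw [map_zero]; rfl

noncomputable abbrev Kr (a b : T →ₗ[k] S) : RR :=
  mkRep (kx a) (kx b) (kx_mul _ _) (kx_mul _ _) (by rw [kx_mul, kx_mul])

theorem xo_Kr (a b : T →ₗ[k] S) (c : T × S) : xo (Kr a b) c = (0, a c.1) := xo_mk _ _ _ _ _ _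
theorem yo_Kr (a b : T →ₗ[k] S) (c : T × S) : yo (Kr a b) c = (0, b c.1) := yo_mk _ _ _ _ _ _

instance (a b : T →ₗ[k] S) [Module.Finite k T] [Module.Finite k S] :
    Module.Finite k (Kr a b).V := inferInstanceAs (Module.Finite k (T × S))

theorem dl_Kr (a b : T →ₗ[k] S) [Module.Finite k T] [Module.Finite k S] :
    dl (Kr a b) = finrank k T + finrank k S := by
  have : Nm (Kr a b) = 0 := LinearMap.ext fun c => by
    rw [Nm_apply, yo_Kr, xo_Kr, map_zero]; rfl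
  unfold dl d0
  rw [this, LinearMap.range_zero, finrank_bot]
  change (finrank k (T × S) : ℤ) - _ = _
  rw [Module.finrank_prod]; simp

def kincl (a' b' : T' →ₗ[k] T) : (T' × T) →ₗ[k] (T × T × T × T) where
  toFun c := (0, b' c.1, a' c.1, c.2)
  map_add' a b := by simp
  map_smul' a b := by simp

noncomputable def kinc (a' b' : T' →ₗ[k] T) : Kr a' b' ⟶ Fr T :=
  mkHom (kincl a' b')
    (fun v => by
      rw [xo_Kr, xo_Fr]
      simp [kincl])
    (fun v => by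
      rw [yo_Kr, yo_Fr]
      simp [kincl])

noncomputable def kcov (a b : T →ₗ[k] S) : Fr T ⟶ Kr a b := flift (LinearMap.inl k T S)

theorem kcov_apply (a b : T →ₗ[k] S) (c : T × T × T × T) :
    (kcov a b).hom c = (c.1, a c.2.1 + b c.2.2.1) := by
  unfold kcov
  rw [lift_apply, xo_Kr, yo_Kr, yo_Kr, xo_Kr]
  simp

theorem kses (a b : T →ₗ[k] S) (a' b' : T' →ₗ[k] T)
    (h1 : ∀ t, a (b' t) = b (a' t)) (h2 : ∀ t, a' t = 0 → b' t = 0 → t = 0)
    (h3 : ∀ c1 c2, a c1 = b c2 → ∃ t, b' t = c1 ∧ a' t = c2)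
    (h4 : ∀ s, ∃ c1 c2, a c1 + b c2 = s) : SES (kinc a' b') (kcov a b) where
  inj := by
    refine (injective_iff_map_eq_zero _).2 ?_
    rintro ⟨t, s⟩ h
    have h' : ((0 : T), b' t, a' t, s) = 0 := h
    simp only [Prod.mk_eq_zero, true_and] at h'
    rw [h2 t h'.2.1 h'.1, h'.2.2]; rfl
  surj := by
    rintro ⟨t, s⟩
    obtain ⟨c1, c2, h⟩ := h4 s
    exact ⟨(t, c1, c2, 0), by
      change (kcov a b).hom _ = _
      rw [kcov_apply, h]⟩
  ex := by
    rintro ⟨c0, c1, c2, c3⟩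
    change (kcov a b).hom _ = 0 ↔ _
    rw [kcov_apply]
    constructor
    · intro h
      simp only [Prod.mk_eq_zero] at h
      obtain ⟨t, ht1, ht2⟩ := h3 c1 c2 (by
        rw [← add_zero (a c1), ← add_self (b c2), ← add_assoc, h.2, zero_add])
      refine ⟨(t, c3), ?_⟩
      change ((0 : T), b' t, a' t, c3) = _
      rw [ht1, ht2, h.1]
    · rintro ⟨⟨t, s⟩, h⟩
      have h' : ((0 : T), b' t, a' t, s) = (c0, c1, c2, c3) := h
      simp only [Prod.mk.injEq] at h'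
      obtain ⟨rfl, rfl, rfl, rfl⟩ := h'
      simp only [h1, add_self]
      rfl
  hig := Hig_Fr T

noncomputable def unitIso (a b : T →ₗ[k] S) (ha : ∀ t, a t = 0) (hb : ∀ t, b t = 0)
    (e : (T × S) ≃ₗ[k] k) : Kr a b ≅ 𝟙_ RR :=
  Rep.mkIso (Representation.Equiv.mk e fun g => by
    refine LinearMap.ext fun v => ?_
    have h1 : (Kr a b).ρ ga v = v := by rw [rho_a, xo_Kr, ha]; exact add_zero _
    have h2 : ∀ v, (Kr a b).ρ gb v = v := fun v => by rw [rho_b, yo_Kr, hb]; exact add_zero _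
    change e ((Kr a b).ρ g v) = e v
    rcases G_cases g with rfl | rfl | rfl | rfl
    · simp
    · rw [h1]
    · rw [h2]
    · rw [rho_mul, h2, h1])

end kron

def pa (m : ℕ) : (Fin (m + 1) → k) →ₗ[k] (Fin m → k) := LinearMap.funLeft k k Fin.succ
def pb (m : ℕ) : (Fin (m + 1) → k) →ₗ[k] (Fin m → k) := LinearMap.funLeft k k Fin.castSucc

def na (m : ℕ) : (Fin m → k) →ₗ[k] (Fin (m + 1) → k) where
  toFun u := Fin.cons 0 u
  map_add' u v := by
    ext i; refine Fin.cases ?_ (fun i => ?_) i <;> simp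
  map_smul' c u := by
    ext i; refine Fin.cases ?_ (fun i => ?_) i <;> simp

def nb (m : ℕ) : (Fin m → k) →ₗ[k] (Fin (m + 1) → k) where
  toFun u := Fin.snoc u 0
  map_add' u v := by
    ext i; refine Fin.lastCases ?_ (fun i => ?_) i <;> simp
  map_smul' c u := by
    ext i; refine Fin.lastCases ?_ (fun i => ?_) i <;> simp

noncomputable abbrev Zp (m : ℕ) : RR := Kr (pa m) (pb m)
noncomputable abbrev Zn (m : ℕ) : RR := Kr (na m) (nb m)

theorem ses_p (m : ℕ) : SES (kinc (pa (m + 1)) (pb (m + 1))) (kcov (pa m) (pb m)) := by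
  refine kses _ _ _ _ (fun t => ?_) (fun t h1 h2 => ?_) (fun c1 c2 h => ?_) (fun s => ?_)
  · rfl
  · ext i
    refine Fin.cases ?_ (fun i => ?_) i
    · exact congrFun h2 0
    · exact congrFun h1 i
  · refine ⟨Fin.cons (c1 0) c2, ?_, ?_⟩
    · ext i
      refine Fin.cases ?_ (fun i => ?_) i
      · simp [pb, LinearMap.funLeft_apply]
      · have := congrFun h i
        simp only [pa, pb, LinearMap.funLeft_apply] at this ⊢
        rw [this, ← Fin.succ_castSucc, Fin.cons_succ]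
    · ext i; simp [pa, LinearMap.funLeft_apply]
  · refine ⟨Fin.cons 0 s, 0, ?_⟩
    ext i; simp [pa, LinearMap.funLeft_apply]

theorem ses_n (m : ℕ) : SES (kinc (na m) (nb m)) (kcov (na (m + 1)) (nb (m + 1))) := by
  refine kses _ _ _ _ (fun t => ?_) (fun t h1 _ => ?_) (fun c1 c2 h => ?_) (fun s => ?_)
  · exact Fin.cons_snoc_eq_snoc_cons (0 : k) t 0
  · ext i
    have := congrFun h1 i.succ
    simpa [na] using this
  · have h' : (Fin.cons 0 c1 : Fin (m + 2) → k) = Fin.snoc c2 0 := h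
    refine ⟨Fin.init c1, ?_, ?_⟩
    · have hl := congrFun h' (Fin.last _)
      rw [Fin.snoc_last, ← Fin.succ_last, Fin.cons_succ] at hl
      change Fin.snoc (Fin.init c1) 0 = c1
      rw [← hl, Fin.snoc_init_self]
    · ext i
      have := congrFun h' i.castSucc
      rw [Fin.snoc_castSucc] at this
      rw [← this]
      refine Fin.cases ?_ (fun i => ?_) i
      · rfl
      · change (Fin.cons 0 (Fin.init c1) : Fin (m + 1) → k) i.succ = _
        rw [← Fin.succ_castSucc, Fin.cons_succ, Fin.cons_succ]; rfl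
  · refine ⟨Fin.tail s, Pi.single 0 (s 0), ?_⟩
    ext i
    refine Fin.cases ?_ (fun i => ?_) i
    · change (0 : k) + (Fin.snoc (Pi.single 0 (s 0) : Fin (m + 1) → k) 0 : Fin (m + 2) → k)
        (Fin.castSucc 0) = _
      rw [Fin.snoc_castSucc]; simp
    · change s i.succ + (Fin.snoc (Pi.single 0 (s 0) : Fin (m + 1) → k) 0 : Fin (m + 2) → k)
        i.succ = _
      refine Fin.lastCases ?_ (fun i => ?_) i
      · rw [Fin.succ_last, Fin.snoc_last, add_zero]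
      · rw [Fin.succ_castSucc, Fin.snoc_castSucc, Pi.single_eq_of_ne (Fin.succ_ne_zero _),
          add_zero]

noncomputable def Zp0 : Zp 0 ≅ 𝟙_ RR :=
  unitIso _ _ (fun _ => Subsingleton.elim _ _) (fun _ => Subsingleton.elim _ _)
    ((LinearEquiv.prodUnique).trans (LinearEquiv.funUnique (Fin 1) k k))

noncomputable def Zn0 : Zn 0 ≅ 𝟙_ RR :=
  unitIso _ _ (fun t => by rw [Subsingleton.elim t 0, map_zero])
    (fun t => by rw [Subsingleton.elim t 0, map_zero])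
    ((LinearEquiv.uniqueProd).trans (LinearEquiv.funUnique (Fin 1) k k))

instance (X Y : RR) [Module.Finite k X.V] [Module.Finite k Y.V] : Module.Finite k (X ⊗ Y).V :=
  inferInstanceAs (Module.Finite k (TensorProduct k X.V Y.V))

theorem dl_step {K K' F : RR} [Module.Finite k K.V] [Module.Finite k K'.V] [Module.Finite k F.V]
    {i : K' ⟶ F} {p : F ⟶ K} (h : SES i p) (W : RR) [Module.Finite k W.V] :
    dl ((W ⊗ K) ⊗ Zp 1) = dl (W ⊗ K') :=
  schanuel ((((ses_p 0).comp_iso Zp0).tensor (W ⊗ K)).comp_iso (ρ_ _)) (h.tensor W)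

theorem dl_swap (W K L : RR) : dl ((W ⊗ K) ⊗ L) = dl ((W ⊗ L) ⊗ K) :=
  dl_iso (α_ W K L ≪≫ whiskerLeftIso W (β_ K L) ≪≫ (α_ W L K).symm)

theorem dl_p0 (W : RR) : dl (W ⊗ Zp 0) = dl W := dl_iso (whiskerLeftIso W Zp0 ≪≫ ρ_ W)
theorem dl_n0 (W : RR) : dl (W ⊗ Zn 0) = dl W := dl_iso (whiskerLeftIso W Zn0 ≪≫ ρ_ W)

section
variable (W : RR) [Module.Finite k W.V]

theorem dl_pA (m : ℕ) : dl ((W ⊗ Zp m) ⊗ Zp 1) = dl (W ⊗ Zp (m + 1)) := dl_step (ses_p m) W
theorem dl_nA (m : ℕ) : dl ((W ⊗ Zn (m + 1)) ⊗ Zp 1) = dl (W ⊗ Zn m) := dl_step (ses_n m) W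
theorem dl_BA : dl ((W ⊗ Zn 1) ⊗ Zp 1) = dl W := by rw [dl_nA, dl_n0]

theorem dl_swap2 (K L M : RR) : dl (((W ⊗ K) ⊗ L) ⊗ M) = dl (((W ⊗ L) ⊗ K) ⊗ M) :=
  dl_iso (whiskerRightIso (α_ W K L ≪≫ whiskerLeftIso W (β_ K L) ≪≫ (α_ W L K).symm) M)

theorem dl_pB (m : ℕ) : dl ((W ⊗ Zp (m + 1)) ⊗ Zn 1) = dl (W ⊗ Zp m) := by
  rw [dl_swap, ← dl_pA, dl_swap2, dl_BA]

theorem dl_nB (m : ℕ) : dl ((W ⊗ Zn m) ⊗ Zn 1) = dl (W ⊗ Zn (m + 1)) := by
  rw [dl_swap, ← dl_nA, dl_swap2, dl_BA]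

end

noncomputable def MM : RR := Zp 1 ⊞ Zn 1

instance : Module.Finite k MM.V := by
  refine Module.Finite.of_injective
    ((biprod.fst : Zp 1 ⊞ Zn 1 ⟶ _).hom.toLinearMap.prod
      (biprod.snd : Zp 1 ⊞ Zn 1 ⟶ _).hom.toLinearMap) ?_
  intro a b h
  have et : ∀ v : (Zp 1 ⊞ Zn 1 : RR).V, (biprod.inl : _ ⟶ Zp 1 ⊞ Zn 1).hom
      ((biprod.fst : Zp 1 ⊞ Zn 1 ⟶ _).hom v) + (biprod.inr : _ ⟶ Zp 1 ⊞ Zn 1).hom
      ((biprod.snd : Zp 1 ⊞ Zn 1 ⟶ _).hom v) = v := fun v =>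
    congrArg (fun t : (Zp 1 ⊞ Zn 1 : RR) ⟶ Zp 1 ⊞ Zn 1 => t.hom v) biprod.total
  have h1 : (biprod.fst : Zp 1 ⊞ Zn 1 ⟶ _).hom a = (biprod.fst : Zp 1 ⊞ Zn 1 ⟶ _).hom b :=
    congrArg Prod.fst h
  have h2 : (biprod.snd : Zp 1 ⊞ Zn 1 ⟶ _).hom a = (biprod.snd : Zp 1 ⊞ Zn 1 ⟶ _).hom b :=
    congrArg Prod.snd h
  exact (et a).symm.trans ((by rw [h1, h2]) : _ = _ ) |>.trans (et b)

theorem dl_M (W : RR) [Module.Finite k W.V] :
    dl (W ⊗ MM) = dl (W ⊗ Zp 1) + dl (W ⊗ Zn 1) := by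
  refine (dl_split (W ◁ biprod.inl) (W ◁ biprod.inr) (W ◁ biprod.fst) (W ◁ biprod.snd)
    ?_ ?_ ?_ ?_ ?_).1
  · rw [← whiskerLeft_comp, biprod.inl_fst, whiskerLeft_id]
  · rw [← whiskerLeft_comp, biprod.inl_snd, MonoidalPreadditive.whiskerLeft_zero]
  · rw [← whiskerLeft_comp, biprod.inr_fst, MonoidalPreadditive.whiskerLeft_zero]
  · rw [← whiskerLeft_comp, biprod.inr_snd, whiskerLeft_id]
  · rw [← whiskerLeft_comp, ← whiskerLeft_comp, ← MonoidalPreadditive.whiskerLeft_add,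
      biprod.total]
    exact whiskerLeft_id _ _

noncomputable def XX (n : ℕ) : RR := (fun X : RR => X ⊗ MM)^[n] (𝟙_ RR)

theorem XX_succ (n : ℕ) : XX (n + 1) = XX n ⊗ MM := Function.iterate_succ_apply' _ _ _

instance XX_fin : ∀ n, Module.Finite k (XX n).V
  | 0 => inferInstanceAs (Module.Finite k k)
  | n + 1 => by
    have := XX_fin n
    rw [XX_succ]; infer_instance

theorem dl_XX (n : ℕ) : ∀ m : ℕ, dl (XX n ⊗ Zp m) = D n m ∧ dl (XX n ⊗ Zn m) = D n (-m) := by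
  induction n with
  | zero =>
    intro m
    constructor
    · rw [show dl (XX 0 ⊗ Zp m) = dl (Zp m) from dl_iso (λ_ _), dl_Kr]
      simp [D]; ring
    · rw [show dl (XX 0 ⊗ Zn m) = dl (Zn m) from dl_iso (λ_ _), dl_Kr]
      simp [D]; ring
  | succ n ih =>
    intro m
    rw [XX_succ, dl_swap, dl_swap _ MM, dl_M, dl_M, dl_pA, dl_nB]
    simp only [D]
    cases m with
    | zero =>
      rw [dl_swap _ (Zp 0), dl_swap _ (Zn 0), dl_p0, dl_n0, (ih 1).1, (ih 1).2]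
      simp
    | succ m =>
      rw [dl_pB, dl_nA, (ih _).1, (ih _).1, (ih _).2, (ih _).2]
      constructor
      · congr 2 <;> push_cast <;> ring
      · congr 2 <;> push_cast <;> ring

theorem dl_XX0 (n : ℕ) : dl (XX n) = D n 0 := by
  rw [← dl_p0, (dl_XX n 0).1]; rfl

end Pool.Agent.H.MP_d25222_al
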